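import Pool.Agent.H389R3.HC7

set_option autoImplicit false

namespace Pool.Agent.Results.MP_6145c0_co.ConnectedBodies

open Pool.Agent.H389R3.Heesch hiding body W tile closure_interior_body isCompact_body mem_W W_subset_interior surrounded not_tiles IsBody Congruent IsPatch TilesSpace Surrounded
open Pool.Agent.H389R3.HC

/-- The Euclidean plane. -/
abbrev Plane := EuclideanSpace ℝ (Fin 2)

/-- A body: a nonempty compact set that equals the closure of its interior. -/
def IsBody (C : Set Plane) : Prop :=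
  C.Nonempty ∧ IsCompact C ∧ closure (interior C) = C

/-- A packing by `C`: a family of images of `C` under isometries of the plane (reflections
allowed) with pairwise disjoint interiors. -/
def IsPacking (C : Set Plane) (F : Set (Set Plane)) : Prop :=
  (∀ Q ∈ F, ∃ g : Plane ≃ᵢ Plane, g '' C = Q) ∧
    ∀ Q ∈ F, ∀ Q' ∈ F, Q ≠ Q' → Disjoint (interior Q) (interior Q')

/-- `C` admits a tiling of the plane: some packing by `C` has the whole plane as its union. -/
def Tiles (C : Set Plane) : Prop := ∃ F : Set (Set Plane), IsPacking C F ∧ ⋃₀ F = Set.univ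

/-- `C` can be surrounded `k` times: there are finite packings
`F 0 = {C} ⊂ F 1 ⊂ ... ⊂ F k` by `C` such that the closure of the complement of the union of
`F (i + 1)` meets no member of `F i`. -/
def SurroundedTimes (C : Set Plane) (k : ℕ) : Prop :=
  ∃ F : ℕ → Set (Set Plane), F 0 = {C} ∧ (∀ i ≤ k, (F i).Finite ∧ IsPacking C (F i)) ∧
    ∀ i < k, F i ⊂ F (i + 1) ∧ ∀ Q ∈ F i, Disjoint (closure (⋃₀ F (i + 1))ᶜ) Q

/-- For every `k` there is a connected body in the plane that can be surrounded `k` times by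
congruent copies of itself but admits no tiling of the plane. -/
theorem result : ∀ k : ℕ, ∃ C : Set Plane,
    IsBody C ∧ IsConnected C ∧ SurroundedTimes C k ∧ ¬ Tiles C := by
  intro k
  have hn : 2 ≤ 2 := le_rfl
  have h01 : (0 : Fin 2) ≠ 1 := by decide
  have hw : 0 < ww 2 := ww_pos hn
  let pr : Par 2 := ⟨0, 1, h01, 0, ww 2⟩
  have hp : pr.Good := ⟨hn, le_rfl, hw.le, hw.le, le_rfl, by show 0 < 0 + ww 2; linarith⟩
  set q : ℤ := 2 * (4 * (k : ℤ) + 8) with hq
  set v : Fin 2 → ℤ := Function.update 0 pr.i₀ (4 * (k : ℤ) + 8) with hv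
  set w := bs pr.i₀ pr.i₁ q v with hwd
  set s := sg pr.i₀ pr.i₁ q v with hsd
  have hs : s = q ∨ s = 0 := sg_or v
  set C : Set Plane := body pr (Fs pr.i₀ q w) (Ds pr.i₀ pr.i₁ q w s) with hC
  have hcomp : IsCompact C := isCompact_body
  have hcl : closure (interior C) = C := closure_interior_body
  have hint : (interior C).Nonempty := by
    refine ⟨_, W_subset_interior (mem_W.2 (Or.inl ⟨w, ?_, G_nonempty hp _⟩))⟩
    rw [mem_Fs]
    exact ⟨fun _ _ => rfl, le_rfl, by omega⟩
  have hne : C.Nonempty := hint.mono interior_subset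
  have hnt : ¬ Tiles C := by
    rintro ⟨F, ⟨hF1, hF2⟩, hF3⟩
    have e1 := card_Fs (i₀ := pr.i₀) (q := q) (by omega) w
    have e2 := card_Ds (i₀ := pr.i₀) (i₁ := pr.i₁) (q := q) (by omega) w s
    refine not_tiles (pr := pr) (F := Fs pr.i₀ q w) (D := Ds pr.i₀ pr.i₁ q w s) hp (by omega)
      ⟨F, ?_, ⟨hF1, hF2⟩, hF3⟩
    -- countability: disjoint nonempty open sets in a separable space
    have hpd : F.PairwiseDisjoint (fun Q => interior Q) := fun Q hQ Q' hQ' h => hF2 Q hQ Q' hQ' h
    refine hpd.countable_of_isOpen (fun Q _ => isOpen_interior) ?_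
    intro Q hQ
    obtain ⟨g, rfl⟩ := hF1 Q hQ
    have := g.toHomeomorph.image_interior C
    change g '' interior C = interior (g '' C) at this
    rw [← this]
    exact hint.image g
  refine ⟨C, ⟨hne, hcomp, hcl⟩, connected_body hp rfl (by omega) hs, ?_, hnt⟩
  obtain ⟨P, hPf, ⟨hP1, hP2⟩, hCP, hcor⟩ := surrounded' hp k (p := 4 * (k : ℤ) + 8) rfl
  change C ∈ P at hCP
  have hsubP : ∀ j, corona P C j ⊆ P := by
    rintro j Q ⟨m, c, hm, h0, hmQ, hc, -⟩
    rw [← hmQ]
    exact hc m le_rfl
  refine ⟨fun j => corona P C j, ?_, ?_, ?_⟩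
  · ext Q
    constructor
    · rintro ⟨m, c, hm, h0, hmQ, -, -⟩
      obtain rfl : m = 0 := by omega
      rw [← hmQ, h0]
      rfl
    · rintro rfl
      exact ⟨0, fun _ => C, le_rfl, rfl, rfl, fun _ _ => hCP, fun i hi => absurd hi (by omega)⟩
  · intro i _
    refine ⟨hPf.subset (hsubP i), fun Q hQ => hP1 Q (hsubP i hQ), ?_⟩
    intro Q hQ Q' hQ' h
    exact hP2 Q (hsubP i hQ) Q' (hsubP i hQ') h
  · intro i hi
    have hmono : corona P C i ⊆ corona P C (i + 1) := by
      rintro Q ⟨m, c, hm, h⟩
      exact ⟨m, c, by omega, h⟩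
    have hkey : ⋃₀ corona P C i ⊆ interior (⋃₀ corona P C (i + 1)) := by
      have := hcor (i + 1) (by omega) (by omega)
      rw [Nat.add_sub_cancel] at this
      exact this
    constructor
    · refine hmono.ssubset_of_ne ?_
      intro heq
      have hcompU : IsCompact (⋃₀ corona P C i) := by
        refine (hPf.subset (hsubP i)).isCompact_sUnion ?_
        intro Q hQ
        obtain ⟨g, rfl⟩ := hP1 Q (hsubP i hQ)
        exact hcomp.image g.continuous
      have hopen : IsOpen (⋃₀ corona P C i) := by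
        rw [← heq] at hkey
        have : interior (⋃₀ corona P C i) = ⋃₀ corona P C i :=
          Set.Subset.antisymm interior_subset hkey
        rw [← this]
        exact isOpen_interior
      have hU : (⋃₀ corona P C i).Nonempty := by
        obtain ⟨x, hx⟩ := hne
        exact ⟨x, C, ⟨0, fun _ => C, by omega, rfl, rfl, fun _ _ => hCP,
          fun i hi => absurd hi (by omega)⟩, hx⟩
      have huniv : (⋃₀ corona P C i) = Set.univ :=
        IsClopen.eq_univ ⟨hcompU.isClosed, hopen⟩ hU
      rw [huniv] at hcompU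
      exact noncompact_univ Plane hcompU
    · intro Q hQ
      rw [Set.disjoint_left]
      intro x hx hxQ
      have h1 : x ∈ interior (⋃₀ corona P C (i + 1)) := hkey ⟨Q, hQ, hxQ⟩
      rw [closure_compl] at hx
      exact hx h1

end Pool.Agent.Results.MP_6145c0_co.ConnectedBodies
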